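import Pool.Agent.U299.LPM.Bwd

/-!
# Lattice path matroids are definable in monadic second-order logic (MP_b5ca43_co, Q1)

The sentence says that every component `K` has two parameters `X`, `Y` (the highest and the lowest
basis of the component) such that

* the cyclic flats `F` of the restriction to `K` that are spanned by `F ∩ X` form a chain, and so do
  those that are spanned by `F ∩ Y`, and a set of the first kind and a set of the second kind are
  disjoint or have union `K`;
* if `A` is a basis of `K` and exchanging `x ∈ A` for `y ∈ K \ A` does not give a basis, then there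
  is a set `F` of one of the two kinds with `y ∈ F`, `x ∉ F` which is spanned by `A ∩ F`.

Conversely, under these conditions the sets of the first kind and the complements of the sets of the
second kind form a chain in `K`; joining the components one after another one gets a chain of sets
and so a linear order in which all these sets are initial segments, and the sets between the two
extreme paths are reached from a basis by exchanges none of which can fail.
-/

set_option autoImplicit false

namespace Pool.Agent.Results.MP_b5ca43_co.MonadicDefinable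

open Set Pool.Agent.U299.LPM

universe u

variable {α : Type u} {M : Matroid α}

theorem height_zero {n : ℕ} (R : Fin n → Bool) : height R 0 = 0 := by simp [height]

theorem height_succ {n : ℕ} (R : Fin n → Bool) (i : ℕ) (hi : i < n) :
    height R (i + 1) = height R i + if R ⟨i, hi⟩ = true then 1 else 0 := by
  unfold height
  by_cases h : R ⟨i, hi⟩ = true
  · rw [if_pos h]
    have : (Finset.univ.filter fun j : Fin n => (j : ℕ) < i + 1 ∧ R j = true) =
        insert ⟨i, hi⟩ (Finset.univ.filter fun j : Fin n => (j : ℕ) < i ∧ R j = true) := by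
      ext j
      simp only [Finset.mem_filter, Finset.mem_univ, true_and, Finset.mem_insert, Fin.ext_iff]
      constructor
      · rintro ⟨h1, h2⟩
        rcases Nat.lt_or_ge (j : ℕ) i with h3 | h3
        · exact Or.inr ⟨h3, h2⟩
        · exact Or.inl (by omega)
      · rintro (h1 | ⟨h1, h2⟩)
        · have : j = ⟨i, hi⟩ := Fin.ext h1
          rw [this]
          exact ⟨by simp, h⟩
        · exact ⟨by omega, h2⟩
    rw [this, Finset.card_insert_of_notMem]
    simp
  · rw [if_neg h, add_zero]
    congr 1
    ext j
    simp only [Finset.mem_filter, Finset.mem_univ, true_and]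
    constructor
    · rintro ⟨h1, h2⟩
      refine ⟨?_, h2⟩
      rcases Nat.lt_or_ge (j : ℕ) i with h3 | h3
      · exact h3
      · have : j = ⟨i, hi⟩ := Fin.ext (by simp; omega)
        rw [this] at h2
        exact absurd h2 h
    · rintro ⟨h1, h2⟩
      exact ⟨by omega, h2⟩

theorem height_eq_ht {n : ℕ} (R : Fin n → Bool) (s : ℕ → α) (B : Set α)
    (h : ∀ i (hi : i < n), R ⟨i, hi⟩ = true ↔ s i ∈ B) : ∀ i ≤ n, height R i = ht s B i := by
  intro i
  induction i with
  | zero => intro _; rw [height_zero, ht_zero]
  | succ i ih =>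
    intro hi
    rw [height_succ R i (by omega), ih (by omega)]
    by_cases hB : s i ∈ B
    · rw [if_pos ((h i (by omega)).2 hB), ht_succ_mem hB]
    · rw [if_neg (fun h' => hB ((h i (by omega)).1 h')), ht_succ_notMem hB, add_zero]

/-- From lattice paths to the structure `LP`. -/
theorem lp_of_isLatticePathMatroid (h : IsLatticePathMatroid M) (hne : M.E.Nonempty) :
    ∃ n s X Y, LP M n s X Y := by
  obtain ⟨m, r, P, Q, σ, hP, hQ, hPQ, hinj, hran, hbase⟩ := h
  obtain ⟨a0, -⟩ := hne
  let s : ℕ → α := fun i => if hi : i < m + r then σ ⟨i, hi⟩ else a0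
  have hs : ∀ i (hi : i < m + r), s i = σ ⟨i, hi⟩ := fun i hi => dif_pos hi
  have hmem : ∀ (R : Fin (m + r) → Bool) i (hi : i < m + r),
      R ⟨i, hi⟩ = true ↔ s i ∈ σ '' {i | R i = true} := by
    intro R i hi
    rw [hs i hi]
    constructor
    · intro h
      exact ⟨⟨i, hi⟩, h, rfl⟩
    · rintro ⟨j, hj, hji⟩
      rw [← hinj hji]
      exact hj
  have hht : ∀ (R : Fin (m + r) → Bool), ∀ i ≤ m + r,
      height R i = ht s (σ '' {i | R i = true}) i := fun R =>
    height_eq_ht R s _ (hmem R)
  have hsinj : InjOn s (Iio (m + r)) := by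
    intro i hi j hj hij
    rw [hs i hi, hs j hj] at hij
    exact congrArg Fin.val (hinj hij)
  have hsran : s '' Iio (m + r) = M.E := by
    rw [← hran]
    ext x
    constructor
    · rintro ⟨i, hi, rfl⟩
      exact ⟨⟨i, hi⟩, (hs i hi).symm⟩
    · rintro ⟨i, rfl⟩
      exact ⟨i, i.2, hs i i.2⟩
  refine ⟨m + r, s, σ '' {i | Q i = true}, σ '' {i | P i = true}, hsinj, hsran, ?_, ?_, ?_⟩
  · exact (hbase _).2 ⟨Q, hQ, hPQ, fun i _ => le_rfl, rfl⟩
  · exact (hbase _).2 ⟨P, hP, fun i _ => le_rfl, hPQ, rfl⟩
  · intro B hB
    rw [hbase]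
    have hPr : ht s (σ '' {i | P i = true}) (m + r) = r := by
      rw [← hht P (m + r) le_rfl]; exact hP
    rw [hPr]
    constructor
    · rintro ⟨R, hR, hPR, hRQ, rfl⟩
      refine ⟨by rw [← hht R (m + r) le_rfl]; exact hR, fun i hi => ?_⟩
      rw [← hht R i hi, ← hht P i hi, ← hht Q i hi]
      exact ⟨hPR i hi, hRQ i hi⟩
    · rintro ⟨h1, h2⟩
      classical
      let R : Fin (m + r) → Bool := fun i => decide (σ i ∈ B)
      have hRB : σ '' {i | R i = true} = B := by
        ext x
        constructor
        · rintro ⟨i, hi, rfl⟩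
          exact of_decide_eq_true hi
        · intro hx
          have hxE := hB hx
          rw [← hran] at hxE
          obtain ⟨i, rfl⟩ := hxE
          exact ⟨i, decide_eq_true hx, rfl⟩
      refine ⟨R, ?_, ?_, ?_, hRB.symm⟩
      · unfold IsPath
        rw [hht R (m + r) le_rfl, hRB]
        exact h1
      · intro i hi
        rw [hht R i hi, hht P i hi, hRB]
        exact (h2 i hi).1
      · intro i hi
        rw [hht R i hi, hht Q i hi, hRB]
        exact (h2 i hi).2

/-- From the structure `LP` to lattice paths. -/
theorem isLatticePathMatroid_of_lp {n : ℕ} {s : ℕ → α} {X Y : Set α} (h : LP M n s X Y) :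
    IsLatticePathMatroid M := by
  classical
  have hle : ∀ i, ht s Y i ≤ i := by
    intro i
    induction i with
    | zero => simp
    | succ i ih =>
      have := ht_succ_le s Y i
      omega
  obtain ⟨m, r, hmr, hr⟩ : ∃ m r, m + r = n ∧ ht s Y n = r :=
    ⟨n - ht s Y n, ht s Y n, by have := hle n; omega, rfl⟩
  subst hmr
  let p : Set α → Fin (m + r) → Bool := fun B i => decide (s i ∈ B)
  have hp : ∀ B : Set α, ∀ i ≤ m + r, height (p B) i = ht s B i := fun B =>
    height_eq_ht (p B) s B fun i hi => by simp [p]
  refine ⟨m, r, p Y, p X, fun i => s i, ?_, ?_, ?_, ?_, ?_, ?_⟩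
  · unfold IsPath
    rw [hp Y _ le_rfl, hr]
  · unfold IsPath
    rw [hp X _ le_rfl, (h.base h.isBase_X).1, hr]
  · intro i hi
    rw [hp Y i hi, hp X i hi]
    exact ((h.base h.isBase_X).2 i hi).1
  · intro i j hij
    exact Fin.ext (h.inj i.2 j.2 hij)
  · rw [← h.ground]
    ext x
    constructor
    · rintro ⟨i, rfl⟩
      exact ⟨i, i.2, rfl⟩
    · rintro ⟨i, hi, rfl⟩
      exact ⟨⟨i, hi⟩, rfl⟩
  · intro B
    constructor
    · intro hB
      obtain ⟨h1, h2⟩ := h.base hB
      refine ⟨p B, ?_, ?_, ?_, ?_⟩
      · unfold IsPath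
        rw [hp B _ le_rfl, h1, hr]
      · intro i hi
        rw [hp Y i hi, hp B i hi]
        exact (h2 i hi).1
      · intro i hi
        rw [hp X i hi, hp B i hi]
        exact (h2 i hi).2
      · ext x
        constructor
        · intro hx
          have hxE := hB.subset_ground hx
          rw [← h.ground] at hxE
          obtain ⟨i, hi, rfl⟩ := hxE
          exact ⟨⟨i, hi⟩, decide_eq_true hx, rfl⟩
        · rintro ⟨i, hi, rfl⟩
          exact of_decide_eq_true hi
    · rintro ⟨R, hR, hYR, hRX, rfl⟩
      have hsub : (fun i : Fin (m + r) => s i) '' {i | R i = true} ⊆ M.E := by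
        rw [← h.ground]
        rintro x ⟨i, -, rfl⟩
        exact ⟨i, i.2, rfl⟩
      have hRB : ∀ i ≤ m + r, height R i =
          ht s ((fun i : Fin (m + r) => s i) '' {i | R i = true}) i := by
        refine height_eq_ht R s _ fun i hi => ?_
        constructor
        · intro h'
          exact ⟨⟨i, hi⟩, h', rfl⟩
        · rintro ⟨j, hj, hji⟩
          have : (j : ℕ) = i := h.inj j.2 hi hji
          have : j = ⟨i, hi⟩ := Fin.ext this
          rw [← this]
          exact hj
      rw [h.isBase_iff _ hsub, hr]
      refine ⟨by rw [← hRB _ le_rfl]; exact hR, fun i hi => ?_⟩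
      rw [← hRB i hi, ← hp Y i hi, ← hp X i hi]
      exact ⟨hYR i hi, hRX i hi⟩

theorem isLatticePathMatroid_of_empty (h : M.E = ∅) : IsLatticePathMatroid M := by
  have hemp : IsEmpty (Fin (0 + 0)) := Fin.isEmpty
  refine ⟨0, 0, fun i => i.elim0, fun i => i.elim0, fun i => i.elim0, ?_, ?_, ?_, ?_, ?_, ?_⟩
  · simp [IsPath, height]
  · simp [IsPath, height]
  · intro i _
    exact le_rfl
  · intro i
    exact i.elim0
  · rw [h]
    exact range_eq_empty _
  · intro B
    constructor
    · intro hB
      refine ⟨fun i => i.elim0, by simp [IsPath, height], fun i _ => le_rfl, fun i _ => le_rfl, ?_⟩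
      have : B ⊆ ∅ := h ▸ hB.subset_ground
      rw [subset_empty_iff.1 this]
      ext x
      constructor
      · intro hx
        exact absurd hx (notMem_empty x)
      · rintro ⟨i, -, -⟩
        exact i.elim0
    · rintro ⟨R, -, -, -, rfl⟩
      obtain ⟨B, hB⟩ := M.exists_isBase
      have h1 : B ⊆ ∅ := h ▸ hB.subset_ground
      rw [subset_empty_iff.1 h1] at hB
      have h2 : (fun i : Fin (0 + 0) => (i.elim0 : α)) '' {i | R i = true} = ∅ := by
        rw [eq_empty_of_isEmpty {i | R i = true}, image_empty]
      rw [h2]
      exact hB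

/-- **Lattice path matroids are definable in `MS₀`.** There is a sentence of `MS₀` that holds in a
finite matroid exactly when the matroid is a lattice path matroid. -/
theorem result : ∃ φ : Formula 0, ∀ (α : Type u) (M : Matroid α), M.Finite →
    (Models M φ ↔ IsLatticePathMatroid M) := by
  refine ⟨sentence, fun α M hM => ?_⟩
  rw [models_sentence]
  rcases M.E.eq_empty_or_nonempty with hE | hE
  · refine ⟨fun _ => isLatticePathMatroid_of_empty hE, fun _ K hK hK' => ?_⟩
    exact absurd (subset_empty_iff.1 (hE ▸ hK)) hK'.2.1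
  · constructor
    · intro h
      obtain ⟨n, s, X, Y, hLP⟩ := lp_of_phi hE h
      exact isLatticePathMatroid_of_lp hLP
    · intro h
      obtain ⟨n, s, X, Y, hLP⟩ := lp_of_isLatticePathMatroid h hE
      exact hLP.phi

end Pool.Agent.Results.MP_b5ca43_co.MonadicDefinable
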